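import Mathlib

set_option autoImplicit false

open MeasureTheory Set Matrix

namespace Pool.Agent.MP_d56d33_an

/-- Companion matrix of `s^n + p_{n-1} s^{n-1} + ... + p_0`: ones on the superdiagonal,
last row `(-p_0, ..., -p_{n-1})`. -/
def companion {n : ℕ} (p : Fin n → ℝ) : Matrix (Fin n) (Fin n) ℝ :=
  fun i j => if (i : ℕ) + 1 = n then -p j else if (j : ℕ) = (i : ℕ) + 1 then 1 else 0

/-- The vector `b = (0, ..., 0, 1)` of `ℝ^n`. -/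
def bvec (n : ℕ) : Fin n → ℝ := fun i => if (i : ℕ) + 1 = n then 1 else 0

/-- The vector `c = (q_0, ..., q_m, 0, ..., 0)` of `ℝ^n`. -/
def cvec (n : ℕ) {m : ℕ} (q : Fin (m + 1) → ℝ) : Fin n → ℝ :=
  fun i => if h : (i : ℕ) < m + 1 then q ⟨i, h⟩ else 0

/-- Right-hand side of the forced system (2): `A_o x - k(t) b φ(cᵀx) + f(t) b`. -/
noncomputable def rhs {n m : ℕ} (p : Fin n → ℝ) (q : Fin (m + 1) → ℝ) (k φ f : ℝ → ℝ)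
    (t : ℝ) (x : EuclideanSpace ℝ (Fin n)) : EuclideanSpace ℝ (Fin n) :=
  WithLp.toLp 2 (companion p *ᵥ x.ofLp - (k t * φ (cvec n q ⬝ᵥ x.ofLp)) • bvec n
    + f t • bvec n)

/-- `x` is a solution of the forced system (2) through `(t₀, x₀)` on the interval `[t₀, T)`,
`t₀ < T ≤ ∞`: locally absolutely continuous, `φ(cᵀx)` locally integrable, and the equation
holds almost everywhere.  For `f = 0` this is a solution of the unforced system (1). -/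
structure IsSolution {n m : ℕ} (p : Fin n → ℝ) (q : Fin (m + 1) → ℝ) (k φ f : ℝ → ℝ)
    (t₀ : ℝ) (x₀ : EuclideanSpace ℝ (Fin n)) (T : EReal)
    (x : ℝ → EuclideanSpace ℝ (Fin n)) : Prop where
  lt : (t₀ : EReal) < T
  init : x t₀ = x₀
  ac : ∀ b : ℝ, t₀ ≤ b → (b : EReal) < T → AbsolutelyContinuousOnInterval x t₀ b
  integrable : ∀ b : ℝ, t₀ ≤ b → (b : EReal) < T →
    IntervalIntegrable (fun t => φ (cvec n q ⬝ᵥ (x t).ofLp)) volume t₀ b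
  ode : ∀ᵐ t : ℝ, t₀ ≤ t → (t : EReal) < T → HasDerivAt x (rhs p q k φ f t (x t)) t

/-- The null solution of the unforced system (1) is exponentially stable. -/
def ExpStable {n m : ℕ} (p : Fin n → ℝ) (q : Fin (m + 1) → ℝ) (k φ : ℝ → ℝ) : Prop :=
  ∃ ε₁ ε₂ : ℝ, 0 < ε₁ ∧ 0 < ε₂ ∧
    ∀ (t₀ : ℝ) (x₀ : EuclideanSpace ℝ (Fin n)) (T : EReal)
      (x : ℝ → EuclideanSpace ℝ (Fin n)), 0 ≤ t₀ →
      IsSolution p q k φ (fun _ => 0) t₀ x₀ T x →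
      ∀ t : ℝ, t₀ ≤ t → (t : EReal) < T → ‖x t‖ ≤ ε₂ * ‖x₀‖ * Real.exp (-ε₁ * (t - t₀))

/-- The forced system (2) is `L₂`-stable. -/
def L2Stable {n m : ℕ} (p : Fin n → ℝ) (q : Fin (m + 1) → ℝ) (k φ : ℝ → ℝ) : Prop :=
  ∀ η₁ η₂ : ℝ, 0 ≤ η₁ → 0 ≤ η₂ → ∃ η₃ : ℝ,
    ∀ (t₀ : ℝ) (x₀ : EuclideanSpace ℝ (Fin n)) (T : EReal)
      (x : ℝ → EuclideanSpace ℝ (Fin n)) (f : ℝ → ℝ), 0 ≤ t₀ → Measurable f →
      ‖x₀‖ < η₁ → (∫⁻ t in Ici (0 : ℝ), ENNReal.ofReal (f t ^ 2)) < ENNReal.ofReal η₂ →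
      IsSolution p q k φ f t₀ x₀ T x →
      (∫⁻ t in {t : ℝ | t₀ ≤ t ∧ (t : EReal) < T}, ENNReal.ofReal (‖x t‖ ^ 2)) ≤
        ENNReal.ofReal η₃

/-- Admissible gains `k : [0, ∞) → [ε, ∞)`, absolutely continuous, for some `ε > 0`. -/
def AdmissibleGain (k : ℝ → ℝ) : Prop :=
  (∃ ε : ℝ, 0 < ε ∧ ∀ t : ℝ, 0 ≤ t → ε ≤ k t) ∧
    ∀ b : ℝ, 0 ≤ b → AbsolutelyContinuousOnInterval k 0 b

/-- Admissible nonlinearities: `φ(0) = 0` and `η₁ σ² ≤ σ φ(σ) ≤ η₂ σ²` for all `σ ≠ 0`, for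
some `0 < η₁ < η₂`. -/
def AdmissibleNonlinearity (φ : ℝ → ℝ) : Prop :=
  φ 0 = 0 ∧ ∃ η₁ η₂ : ℝ, 0 < η₁ ∧ η₁ < η₂ ∧
    ∀ σ : ℝ, σ ≠ 0 → η₁ * σ ^ 2 ≤ σ * φ σ ∧ σ * φ σ ≤ η₂ * σ ^ 2

end Pool.Agent.MP_d56d33_an
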