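import Pool.Agent.MP_d56d33_an.Defs

set_option autoImplicit false

open MeasureTheory Set Matrix

namespace Pool.Agent.MP_d56d33_an

/-- Vectors of `ℝ^1`. -/
noncomputable def vec1 (y : ℝ) : EuclideanSpace ℝ (Fin 1) := WithLp.toLp 2 ![y]

lemma vec1_apply (y : ℝ) : (vec1 y).ofLp 0 = y := by simp [vec1]

lemma vec1_eq_smul (y : ℝ) : vec1 y = y • vec1 1 := by
  ext i
  fin_cases i
  simp [vec1]

lemma hasDerivAt_vec1 {y : ℝ → ℝ} {y' t : ℝ} (h : HasDerivAt y y' t) :
    HasDerivAt (fun s => vec1 (y s)) (vec1 y') t := by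
  have := h.smul_const (vec1 1)
  rw [← vec1_eq_smul] at this
  convert! this using 1
  ext1 s
  exact vec1_eq_smul _

lemma norm_one (x : EuclideanSpace ℝ (Fin 1)) : ‖x‖ = |x 0| := by
  simp [EuclideanSpace.norm_eq, Real.sqrt_sq_eq_abs]

lemma norm_vec1 (y : ℝ) : ‖vec1 y‖ = |y| := by
  rw [norm_one]; simp [vec1]

lemma rhs_one (k φ f : ℝ → ℝ) (t : ℝ) (x : EuclideanSpace ℝ (Fin 1)) :
    rhs (n := 1) (m := 0) ![-1] ![1] k φ f t x =
      vec1 (x 0 - k t * φ (x 0) + f t) := by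
  ext i
  fin_cases i
  simp [rhs, vec1, companion, bvec, cvec, Matrix.mulVec, dotProduct]

lemma cvec_one (x : EuclideanSpace ℝ (Fin 1)) : cvec 1 (m := 0) ![1] ⬝ᵥ x.ofLp = x 0 := by
  simp [cvec, dotProduct]

/-- The scalar form of a solution. -/
lemma scalar_ode {k φ f : ℝ → ℝ} {t₀ : ℝ} {x₀ : EuclideanSpace ℝ (Fin 1)} {T : EReal}
    {x : ℝ → EuclideanSpace ℝ (Fin 1)}
    (h : IsSolution (n := 1) (m := 0) ![-1] ![1] k φ f t₀ x₀ T x) :
    ∀ᵐ t : ℝ, t₀ ≤ t → (t : EReal) < T →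
      HasDerivAt (fun s => x s 0) (x t 0 - k t * φ (x t 0) + f t) t := by
  filter_upwards [h.ode] with t ht h1 h2
  have := ht h1 h2
  rw [rhs_one] at this
  have h3 := (EuclideanSpace.proj (𝕜 := ℝ) (0 : Fin 1)).hasFDerivAt.comp_hasDerivAt t this
  simpa [vec1, Function.comp_def] using h3

lemma scalar_ac {k φ f : ℝ → ℝ} {t₀ : ℝ} {x₀ : EuclideanSpace ℝ (Fin 1)} {T : EReal}
    {x : ℝ → EuclideanSpace ℝ (Fin 1)}
    (h : IsSolution (n := 1) (m := 0) ![-1] ![1] k φ f t₀ x₀ T x) {b : ℝ} (hb : t₀ ≤ b)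
    (hbT : (b : EReal) < T) : AbsolutelyContinuousOnInterval (fun s => x s 0) t₀ b := by
  have h1 := h.ac b hb hbT
  refine squeeze_zero (fun t => Finset.sum_nonneg (fun i _ => dist_nonneg)) (fun E => ?_) h1
  refine Finset.sum_le_sum (fun i _ => ?_)
  rw [Real.dist_eq, dist_eq_norm, norm_one]
  simp

/-- Composition of an absolutely continuous function with a Lipschitz function. -/
lemma ac_comp_lipschitz {y G : ℝ → ℝ} {a b : ℝ} {K : NNReal}
    (hy : AbsolutelyContinuousOnInterval y a b) (hG : LipschitzWith K G) :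
    AbsolutelyContinuousOnInterval (fun s => G (y s)) a b := by
  have h1 : Filter.Tendsto (fun E : ℕ × (ℕ → ℝ × ℝ) => (K : ℝ) *
      ∑ i ∈ Finset.range E.1, dist (y (E.2 i).1) (y (E.2 i).2))
      (AbsolutelyContinuousOnInterval.totalLengthFilter ⊓
        Filter.principal (AbsolutelyContinuousOnInterval.disjWithin a b)) (nhds 0) := by
    have := Filter.Tendsto.const_mul (K : ℝ) hy
    simpa using this
  refine squeeze_zero (fun t => Finset.sum_nonneg (fun i _ => dist_nonneg)) (fun E => ?_) h1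
  rw [Finset.mul_sum]
  refine Finset.sum_le_sum (fun i _ => ?_)
  exact hG.dist_le_mul _ _

/-- A differential inequality for absolutely continuous functions. -/
lemma ac_le_of_deriv_le {F h : ℝ → ℝ} {a b : ℝ} (hab : a ≤ b)
    (hF : AbsolutelyContinuousOnInterval F a b) (hh : IntervalIntegrable h volume a b)
    (hle : ∀ᵐ t : ℝ, t ∈ Icc a b → deriv F t ≤ h t) :
    F b - F a ≤ ∫ t in a..b, h t := by
  rw [← hF.integral_deriv_eq_sub]
  apply intervalIntegral.integral_mono_ae_restrict hab hF.intervalIntegrable_deriv hh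
  rw [Filter.EventuallyLE, ae_restrict_iff' measurableSet_Icc]
  exact hle

end Pool.Agent.MP_d56d33_an
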